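import Pool.Agent.Q69.MTQ.Log
import Pool.Agent.H204R3.SP.Lie

/-!
# Endomorphisms which commute with the Lie algebra commute with an open subgroup
-/

set_option autoImplicit false

namespace Pool.Agent.Q69.MTQ

open Filter Topology Matrix Module Pool.Agent.H204R3.SP

/-- The representation is continuous: all its matrix coefficients are continuous functions. -/
def ContinuousRep {ℓ : ℕ} [Fact ℓ.Prime] {Γ V : Type} [Group Γ] [TopologicalSpace Γ]
    [AddCommGroup V] [Module ℚ_[ℓ] V] (ρ : Representation ℚ_[ℓ] Γ V) : Prop :=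
  ∀ (f : V →ₗ[ℚ_[ℓ]] ℚ_[ℓ]) (v : V), Continuous fun s => f (ρ s v)

variable {ℓ : ℕ} [hℓ : Fact ℓ.Prime] {Γ V : Type} [Group Γ] [TopologicalSpace Γ]
  [IsTopologicalGroup Γ] [CompactSpace Γ] [AddCommGroup V] [Module ℚ_[ℓ] V]
  [FiniteDimensional ℚ_[ℓ] V] (ρ : Representation ℚ_[ℓ] Γ V) (χ : Γ →* ℚ_[ℓ])

/-- the elements acting by matrices close to one -/
def nearOne (b : Basis (Fin (finrank ℚ_[ℓ] V)) ℚ_[ℓ] V) (s : Γ) : Prop :=
  Bd ((ℓ : ℝ)⁻¹ ^ 2) (LinearMap.toMatrix b b (ρ s) - 1) ∧ ‖χ s - 1‖ ≤ (ℓ : ℝ)⁻¹ ^ 2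

lemma eps_pos : 0 < (ℓ : ℝ)⁻¹ ^ 2 := pow_pos (inv_pos.2 l_pos) 2

lemma eps_le : (ℓ : ℝ)⁻¹ ^ 2 ≤ 1 :=
  pow_le_one₀ (inv_nonneg.2 l_pos.le) (inv_le_one_of_one_le₀ one_le_l)

omit [TopologicalSpace Γ] [IsTopologicalGroup Γ] [CompactSpace Γ] [FiniteDimensional ℚ_[ℓ] V] in
lemma nearOne_one (b : Basis (Fin (finrank ℚ_[ℓ] V)) ℚ_[ℓ] V) : nearOne ρ χ b 1 := by
  constructor
  · rw [map_one, LinearMap.toMatrix_one, sub_self]
    exact Bd.zero eps_pos.le
  · rw [map_one, sub_self, norm_zero]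
    exact eps_pos.le

omit [TopologicalSpace Γ] [IsTopologicalGroup Γ] [CompactSpace Γ] [FiniteDimensional ℚ_[ℓ] V] in
lemma nearOne_mul (b : Basis (Fin (finrank ℚ_[ℓ] V)) ℚ_[ℓ] V) {s t : Γ} (hs : nearOne ρ χ b s)
    (ht : nearOne ρ χ b t) : nearOne ρ χ b (s * t) := by
  have key : ∀ {n : ℕ} {A B : Matrix (Fin n) (Fin n) ℚ_[ℓ]}, Bd ((ℓ : ℝ)⁻¹ ^ 2) (A - 1) →
      Bd ((ℓ : ℝ)⁻¹ ^ 2) (B - 1) → Bd ((ℓ : ℝ)⁻¹ ^ 2) (A * B - 1) := by
    intro n A B hA hB
    have h1 : A * B - 1 = (A - 1) * B + (B - 1) := by rw [sub_mul, one_mul]; abel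
    rw [h1]
    refine Bd.add ?_ hB
    have h2 := Bd.mul eps_pos.le zero_le_one hA (Bd.of_sub_one eps_le hB)
    rwa [mul_one] at h2
  constructor
  · rw [map_mul, LinearMap.toMatrix_mul]
    exact key hs.1 ht.1
  · rw [map_mul]
    have h1 : χ s * χ t - 1 = (χ s - 1) * (χ t - 1) + ((χ s - 1) + (χ t - 1)) := by ring
    rw [h1]
    refine (Padic.nonarchimedean _ _).trans (max_le ?_ ((Padic.nonarchimedean _ _).trans
      (max_le hs.2 ht.2)))
    rw [norm_mul]
    calc ‖χ s - 1‖ * ‖χ t - 1‖ ≤ (ℓ : ℝ)⁻¹ ^ 2 * 1 :=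
          mul_le_mul hs.2 (ht.2.trans eps_le) (norm_nonneg _) eps_pos.le
      _ = (ℓ : ℝ)⁻¹ ^ 2 := mul_one _

/-- the subgroup of the elements acting by matrices close to one -/
def nearSub (b : Basis (Fin (finrank ℚ_[ℓ] V)) ℚ_[ℓ] V) : Subgroup Γ where
  carrier := {s | nearOne ρ χ b s ∧ nearOne ρ χ b s⁻¹}
  one_mem' := ⟨nearOne_one ρ χ b, by rw [inv_one]; exact nearOne_one ρ χ b⟩
  mul_mem' := fun hs ht => ⟨nearOne_mul ρ χ b hs.1 ht.1, by
    rw [_root_.mul_inv_rev]; exact nearOne_mul ρ χ b ht.2 hs.2⟩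
  inv_mem' := fun hs => ⟨hs.2, by rw [inv_inv]; exact hs.1⟩

omit [FiniteDimensional ℚ_[ℓ] V] [CompactSpace Γ] in
lemma nearSub_open (b : Basis (Fin (finrank ℚ_[ℓ] V)) ℚ_[ℓ] V) (hρ : ContinuousRep ρ)
    (hχ : Continuous χ) : IsOpen (nearSub ρ χ b : Set Γ) := by
  have h1 : IsOpen {s | nearOne ρ χ b s} := by
    have h2 : {s | nearOne ρ χ b s} =
        (⋂ i, ⋂ j, (fun s => LinearMap.toMatrix b b (ρ s) i j) ⁻¹'
          Metric.closedBall ((1 : Matrix _ _ ℚ_[ℓ]) i j) ((ℓ : ℝ)⁻¹ ^ 2)) ∩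
        (fun s => χ s) ⁻¹' Metric.closedBall 1 ((ℓ : ℝ)⁻¹ ^ 2) := by
      ext s
      simp only [Set.mem_ofPred_eq, Set.mem_inter_iff, Set.mem_iInter, Set.mem_preimage,
        mem_closedBall_iff_norm]
      rfl
    rw [h2]
    refine IsOpen.inter ?_ ?_
    · refine isOpen_iInter_of_finite fun i => isOpen_iInter_of_finite fun j => ?_
      refine (IsUltrametricDist.isOpen_closedBall _ eps_pos.ne').preimage ?_
      have h3 : (fun s => LinearMap.toMatrix b b (ρ s) i j) = fun s => b.coord i (ρ s (b j)) := by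
        funext s
        rw [LinearMap.toMatrix_apply, Basis.coord_apply]
      rw [h3]
      exact hρ _ _
    · exact (IsUltrametricDist.isOpen_closedBall _ eps_pos.ne').preimage hχ
  exact h1.inter (h1.preimage continuous_inv)

/-- **An endomorphism which commutes with the Lie algebra of the endomorphisms killing all Tate
tensors commutes with a subgroup of finite index.** -/
theorem commute_of_lieT (hρ : ContinuousRep ρ) (hχ : Continuous χ) {P : Module.End ℚ_[ℓ] V}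
    (hP : ∀ X ∈ lieT ρ χ, X * P = P * X) :
    ∃ Δ : Subgroup Γ, Δ.FiniteIndex ∧ ∀ s ∈ Δ, ∀ v, P (ρ s v) = ρ s (P v) := by
  classical
  let b := finBasis ℚ_[ℓ] V
  have hop := nearSub_open ρ χ b hρ hχ
  have hfin : Finite (Γ ⧸ nearSub ρ χ b) := (nearSub ρ χ b).quotient_finite_of_isOpen hop
  refine ⟨nearSub ρ χ b, Subgroup.finiteIndex_of_finite_quotient, fun s hs v => ?_⟩
  by_contra hne
  set S := LinearMap.toMatrix b b (ρ s) with hS
  set Pm := LinearMap.toMatrix b b P with hPm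
  have hne' : S * Pm ≠ Pm * S := by
    intro h
    rw [hS, hPm, ← LinearMap.toMatrix_mul, ← LinearMap.toMatrix_mul] at h
    have h1 := (LinearMap.toMatrix b b).injective h
    exact hne (congrArg (fun F : Module.End ℚ_[ℓ] V => F v) h1).symm
  obtain ⟨Y, y, hY, hform⟩ := exists_log hs.1.1 hs.1.2 hne'
  set X₀ : Module.End ℚ_[ℓ] V := Matrix.toLin b b Y with hX₀
  have hrep : ∀ (f : Module.End ℚ_[ℓ] V) (x : V), b.equivFun (f x) =
      (LinearMap.toMatrix b b f).mulVec (b.equivFun x) := by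
    intro f x
    have h1 := LinearMap.toMatrix_mulVec_repr b b f x
    exact h1.symm
  have hX₀m : LinearMap.toMatrix b b X₀ = Y := by rw [hX₀, LinearMap.toMatrix_toLin]
  have hX : X₀ - (y / 2) • (1 : Module.End ℚ_[ℓ] V) ∈ lieT ρ χ := by
    intro m φ hφ w
    obtain ⟨Δ, hΔ, hφ⟩ := hφ
    obtain ⟨N, hN, -, hsN⟩ := Subgroup.exists_pow_mem_of_index_ne_zero hΔ.index_ne_zero s
    let φ' : MultilinearMap ℚ_[ℓ] (fun _ : Fin m × Fin 2 => Fin (finrank ℚ_[ℓ] V) → ℚ_[ℓ]) ℚ_[ℓ] :=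
      φ.compLinearMap fun _ => (b.equivFun.symm : (Fin (finrank ℚ_[ℓ] V) → ℚ_[ℓ]) →ₗ[ℚ_[ℓ]] V)
    have hφ' : ∀ u, φ' u = φ fun l => b.equivFun.symm (u l) := fun u => rfl
    have hpow : S ^ N = LinearMap.toMatrix b b (ρ (s ^ N)) := by
      rw [map_pow, hS]
      clear hsN hN
      induction N with
      | zero => rw [pow_zero, pow_zero, LinearMap.toMatrix_one]
      | succ N ih => rw [pow_succ, pow_succ, LinearMap.toMatrix_mul, ih]
    have h1 := hform (Fin m × Fin 2) φ' N m hN (fun u => by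
      have e1 : (χ s ^ N) ^ m = χ (s ^ N) ^ m := by rw [map_pow]
      rw [hφ', hφ', e1, ← hφ (s ^ N) hsN]
      congr 1
      funext l
      apply b.equivFun.injective
      rw [LinearEquiv.apply_symm_apply, hrep, LinearEquiv.apply_symm_apply, hpow]) fun l =>
        b.equivFun (w l)
    have h2 : ∀ j, φ' (Function.update (fun l => b.equivFun (w l)) j
        (Y.mulVec (b.equivFun (w j)))) = φ (Function.update w j (X₀ (w j))) := by
      intro j
      rw [hφ']
      congr 1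
      funext l
      by_cases hl : l = j
      · subst hl
        rw [Function.update_self, Function.update_self, ← hX₀m, ← hrep,
          LinearEquiv.symm_apply_apply]
      · rw [Function.update_of_ne hl, Function.update_of_ne hl, LinearEquiv.symm_apply_apply]
    rw [Finset.sum_congr rfl fun j _ => h2 j, hφ'] at h1
    simp only [LinearEquiv.symm_apply_apply] at h1
    have h3 : ∀ j, φ (Function.update w j ((X₀ - (y / 2) • (1 : Module.End ℚ_[ℓ] V)) (w j))) =
        φ (Function.update w j (X₀ (w j))) - (y / 2) * φ w := by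
      intro j
      rw [LinearMap.sub_apply, MultilinearMap.map_update_sub, LinearMap.smul_apply,
        MultilinearMap.map_update_smul, Module.End.one_apply, Function.update_eq_self, smul_eq_mul]
    rw [Finset.sum_congr rfl fun j _ => h3 j, Finset.sum_sub_distrib, h1, Finset.sum_const,
      Finset.card_univ, Fintype.card_prod, Fintype.card_fin, Fintype.card_fin, nsmul_eq_mul]
    push_cast
    ring
  have h4 := hP _ hX
  have h5 : X₀ * P = P * X₀ := by
    rw [sub_mul, mul_sub, smul_mul_assoc, mul_smul_comm, one_mul, mul_one] at h4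
    exact sub_left_injective h4
  apply hY
  rw [← hX₀m, hPm, ← LinearMap.toMatrix_mul, ← LinearMap.toMatrix_mul, h5]

end Pool.Agent.Q69.MTQ
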