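import Pool.Agent.Q69.MTQ.Main

/-!
# One quartic Tate class decides the Mumford-Tate conjecture: final form
-/

set_option autoImplicit false

namespace Pool.Agent.Q69.MTQ

open Module TensorProduct Pool.Agent.H204R3.GP Pool.Agent.W516.MTD

section defs

variable {k : Type} [Field k] [CharZero k] {W T : Type} [AddCommGroup W] [Module ℚ W]
  [AddCommGroup T] [Module ℂ T] {Γ : Type} [Group Γ]

/-- Multilinear forms in `2 m` variables on `V = k ⊗ W`, that is, classes in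
`(H^1(A) ^ {⊗ 2 m}) (m)`. -/
abbrev Form (k W : Type) [Field k] [CharZero k] [AddCommGroup W] [Module ℚ W] (m : ℕ) : Type :=
  MultilinearMap k (fun _ : Fin m × Fin 2 => k ⊗[ℚ] W) k

/-- The class `φ` is fixed by the whole Galois group. -/
def IsFixed (ρ : Representation k Γ (k ⊗[ℚ] W)) (χ : Γ →* k) (m : ℕ) (φ : Form k W m) : Prop :=
  ∀ s v, φ (fun l => ρ s (v l)) = χ s ^ m * φ v

/-- The Mumford-Tate conjecture for `A` and all its powers: all Tate classes in the tensor powers of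
`H^1` are linear combinations of Hodge classes (the converse is the theorem of Deligne). -/
def MumfordTate (per : W →+ T) (ρ : Representation k Γ (k ⊗[ℚ] W)) (χ : Γ →* k) : Prop :=
  ∀ (m : ℕ) (φ : Form k W m), IsTateTensor ρ χ m φ → IsHodgeCombination per φ

/-- The classes in the spaces `Alg m` are linear combinations of Hodge classes. -/
def ConsistsOfHodgeClasses (per : W →+ T) (Alg : ∀ m : ℕ, Submodule k (Form k W m)) : Prop :=
  ∀ (m : ℕ) (φ : Form k W m), φ ∈ Alg m → IsHodgeCombination per φ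

/-- The Tate conjecture for `A` and all its powers, for the spaces `Alg m` of algebraic classes. -/
def TateConjecture (ρ : Representation k Γ (k ⊗[ℚ] W)) (χ : Γ →* k)
    (Alg : ∀ m : ℕ, Submodule k (Form k W m)) : Prop :=
  ∀ (m : ℕ) (φ : Form k W m), IsTateTensor ρ χ m φ → φ ∈ Alg m

/-- The Hodge conjecture for `A` and all its powers, for the spaces `Alg m` of algebraic classes
(with coefficients in `k`). -/
def HodgeConjecture (per : W →+ T) (Alg : ∀ m : ℕ, Submodule k (Form k W m)) : Prop :=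
  ∀ (m : ℕ) (φ : Form k W m), IsHodgeCombination per φ → φ ∈ Alg m

end defs

variable {ℓ : ℕ} [hℓ : Fact ℓ.Prime] {W T : Type} [AddCommGroup W] [Module ℚ W]
  [FiniteDimensional ℚ W] [AddCommGroup T] [Module ℂ T] (per : W →+ T)
  {Γ : Type} [Group Γ] [TopologicalSpace Γ] [IsTopologicalGroup Γ] [CompactSpace Γ]
  (ρ : Representation ℚ_[ℓ] Γ (ℚ_[ℓ] ⊗[ℚ] W)) (χ : Γ →* ℚ_[ℓ])
  (ω₀ : W →ₗ[ℚ] W →ₗ[ℚ] ℚ) (ω : ℚ_[ℓ] ⊗[ℚ] W →ₗ[ℚ_[ℓ]] ℚ_[ℓ] ⊗[ℚ] W →ₗ[ℚ_[ℓ]] ℚ_[ℓ])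

/-- linear combinations of Hodge classes are Tate classes -/
theorem tate_of_hodge (hD : Deligne per ρ χ) {m : ℕ} {φ : Form ℚ_[ℓ] W m}
    (h : IsHodgeCombination per φ) : IsTateTensor ρ χ m φ := by
  unfold IsHodgeCombination at h
  induction h using Submodule.span_induction with
  | mem x hx =>
    obtain ⟨ψ, hψ, hx⟩ := hx
    exact hD m ψ hψ x hx
  | zero => exact ⟨⊤, inferInstance, fun s _ v => by simp⟩
  | add x y _ _ hx hy =>
    obtain ⟨Δ, hΔ, hx⟩ := hx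
    obtain ⟨Δ', hΔ', hy⟩ := hy
    refine ⟨Δ ⊓ Δ', inferInstance, fun s hs v => ?_⟩
    rw [MultilinearMap.add_apply, MultilinearMap.add_apply, hx s hs.1, hy s hs.2, mul_add]
  | smul c x _ hx =>
    obtain ⟨Δ, hΔ, hx⟩ := hx
    refine ⟨Δ, hΔ, fun s hs v => ?_⟩
    rw [MultilinearMap.smul_apply, MultilinearMap.smul_apply, hx s hs, smul_eq_mul, smul_eq_mul]
    ring

/-- **One class decides**, final form. -/
theorem one_class (hper : IsRationalStructure per) (hR : IsRiemannForm per ω₀)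
    (hωω : ∀ u v : W, ω ((1 : ℚ_[ℓ]) ⊗ₜ[ℚ] u) ((1 : ℚ_[ℓ]) ⊗ₜ[ℚ] v) = ((ω₀ u v : ℚ) : ℚ_[ℓ]))
    (hωρ : ∀ s u v, ω (ρ s u) (ρ s v) = χ s * ω u v)
    (hρ : ContinuousRep ρ) (hχ : Continuous χ) (hss : Semisimple ρ) (hF : Faltings per ρ)
    (hD : Deligne per ρ χ) (hC : Centres per ρ χ) :
    ∃ Θ : Form ℚ_[ℓ] W 2, IsFixed ρ χ 2 Θ ∧
      List.TFAE [IsHodgeCombination per Θ,
        ∀ φ : Form ℚ_[ℓ] W 2, IsFixed ρ χ 2 φ → IsHodgeCombination per φ,
        MumfordTate per ρ χ] ∧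
      ∀ Alg : ∀ m : ℕ, Submodule ℚ_[ℓ] (Form ℚ_[ℓ] W m), ConsistsOfHodgeClasses per Alg →
        (TateConjecture ρ χ Alg ↔ HodgeConjecture per Alg ∧ Θ ∈ Alg 2) := by
  obtain ⟨Θ, h1, h2⟩ := quartic per ρ χ ω₀ ω hper hR (fun u v => by rw [hωω, eq_ratCast]) hωρ hρ hχ
    hss hF hD hC
  have hfix : ∀ φ : Form ℚ_[ℓ] W 2, IsFixed ρ χ 2 φ → IsTateTensor ρ χ 2 φ := fun φ hφ =>
    ⟨⊤, inferInstance, fun s _ v => hφ s v⟩
  refine ⟨Θ, h1, ?_, fun Alg hA => ⟨fun h => ⟨fun m φ hφ => ?_, ?_⟩, fun h m φ hφ => ?_⟩⟩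
  · tfae_have 1 → 3 := fun h m φ hφ => h2 h m φ hφ
    tfae_have 3 → 2 := fun h φ hφ => h 2 φ (hfix φ hφ)
    tfae_have 2 → 1 := fun h => h Θ h1
    tfae_finish
  · exact h m φ (tate_of_hodge per ρ χ hD hφ)
  · exact h 2 Θ (hfix Θ h1)
  · exact h.1 m φ (h2 (hA 2 Θ h.2) m φ hφ)

end Pool.Agent.Q69.MTQ
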