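import Pool.Agent.Q69.MTQ.Padic

/-!
# Logarithms of `ℓ`-adic matrices and invariant multilinear forms
-/

set_option autoImplicit false

namespace Pool.Agent.Q69.MTQ

open Filter Topology Matrix

variable {ℓ : ℕ} [hℓ : Fact ℓ.Prime] {n : ℕ}

/-- multilinear forms are continuous -/
lemma multilinear_continuous {κ : Type*} [Fintype κ]
    (φ : MultilinearMap ℚ_[ℓ] (fun _ : κ => Fin n → ℚ_[ℓ]) ℚ_[ℓ]) : Continuous φ := by
  classical
  have h1 : (φ : (κ → Fin n → ℚ_[ℓ]) → ℚ_[ℓ]) = fun v => ∑ r : κ → Fin n,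
      (∏ l, v l (r l)) • φ (fun l => Pi.single (r l) (1 : ℚ_[ℓ])) := by
    funext v
    have h2 : v = fun l => ∑ i, v l i • (Pi.single i (1 : ℚ_[ℓ]) : Fin n → ℚ_[ℓ]) := by
      funext l
      exact pi_eq_sum_univ' (v l)
    conv_lhs => rw [h2]
    rw [MultilinearMap.map_sum]
    refine Finset.sum_congr rfl fun r _ => ?_
    rw [MultilinearMap.map_smul_univ]
  rw [h1]
  refine continuous_finsetSum _ fun r _ => ?_
  have h3 : ∀ l, Continuous fun v : κ → Fin n → ℚ_[ℓ] => v l (r l) := fun l =>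
    (continuous_apply (r l)).comp (continuous_apply l)
  have h4 : Continuous fun v : κ → Fin n → ℚ_[ℓ] => ∏ l, v l (r l) :=
    continuous_finsetProd _ fun l _ => h3 l
  exact h4.smul continuous_const

lemma tendsto_l_pow : Tendsto (fun k : ℕ => (ℓ : ℚ_[ℓ]) ^ (k + 2)) atTop (𝓝 0) := by
  have h1 : Tendsto (fun k : ℕ => (ℓ : ℚ_[ℓ]) ^ k) atTop (𝓝 0) := by
    apply tendsto_pow_atTop_nhds_zero_of_norm_lt_one
    rw [norm_l]
    exact inv_lt_one_of_one_lt₀ (by exact_mod_cast hℓ.out.one_lt)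
  exact (tendsto_add_atTop_iff_nat 2).2 h1

lemma l_ne : (ℓ : ℚ_[ℓ]) ≠ 0 := by exact_mod_cast hℓ.out.ne_zero

/-- small multiples -/
lemma bd_div {A : Matrix (Fin n) (Fin n) ℚ_[ℓ]} {k : ℕ} (hA : Bd ((ℓ : ℝ)⁻¹ ^ (k + 2)) A) :
    Bd 1 (((ℓ : ℚ_[ℓ]) ^ (k + 2))⁻¹ • A) := by
  have h1 := hA.smul (((ℓ : ℚ_[ℓ]) ^ (k + 2))⁻¹)
  rw [norm_inv, norm_pow, norm_l, inv_mul_cancel₀ (pow_ne_zero _ (inv_ne_zero l_pos.ne'))] at h1
  exact h1

/-- limits of bounded sequences of matrices -/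
lemma exists_limit {A : ℕ → Matrix (Fin n) (Fin n) ℚ_[ℓ]} (hA : ∀ k, Bd 1 (A k))
    {a : ℕ → ℚ_[ℓ]} (ha : ∀ k, ‖a k‖ ≤ 1) :
    ∃ (Y : Matrix (Fin n) (Fin n) ℚ_[ℓ]) (y : ℚ_[ℓ]) (f : ℕ → ℕ), StrictMono f ∧
      Tendsto (fun k => A (f k)) atTop (𝓝 Y) ∧ Tendsto (fun k => a (f k)) atTop (𝓝 y) := by
  let z : ℕ → (Fin n → Fin n → ℚ_[ℓ]) × ℚ_[ℓ] := fun k => (fun i j => A k i j, a k)
  have hz : ∀ k, z k ∈ Metric.closedBall (0 : (Fin n → Fin n → ℚ_[ℓ]) × ℚ_[ℓ]) 1 := by
    intro k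
    rw [mem_closedBall_zero_iff, Prod.norm_def]
    refine max_le ?_ (ha k)
    rw [pi_norm_le_iff_of_nonneg zero_le_one]
    intro i
    rw [pi_norm_le_iff_of_nonneg zero_le_one]
    exact fun j => hA k i j
  obtain ⟨w, -, f, hf, hw⟩ := (isCompact_closedBall _ _).tendsto_subseq hz
  exact ⟨w.1, w.2, f, hf, (continuous_fst.tendsto w).comp hw, (continuous_snd.tendsto w).comp hw⟩

/-- **Logarithms.** For a matrix `S` close to one which does not commute with `P` there is a matrix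
`Y` which does not commute with `P`, and which acts by the multiplication by `m y` on all multilinear
forms on which a power `S ^ N` acts by the multiplication by `(x ^ N) ^ m`. -/
theorem exists_log {S P : Matrix (Fin n) (Fin n) ℚ_[ℓ]} {x : ℚ_[ℓ]}
    (hS : Bd ((ℓ : ℝ)⁻¹ ^ 2) (S - 1)) (hx : ‖x - 1‖ ≤ (ℓ : ℝ)⁻¹ ^ 2) (hne : S * P ≠ P * S) :
    ∃ (Y : Matrix (Fin n) (Fin n) ℚ_[ℓ]) (y : ℚ_[ℓ]), Y * P ≠ P * Y ∧
      ∀ (κ : Type) [Fintype κ] [DecidableEq κ]
        (φ : MultilinearMap ℚ_[ℓ] (fun _ : κ => Fin n → ℚ_[ℓ]) ℚ_[ℓ]) (N m : ℕ), 0 < N →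
        (∀ v, φ (fun l => (S ^ N).mulVec (v l)) = (x ^ N) ^ m * φ v) →
        ∀ v, ∑ j, φ (Function.update v j (Y.mulVec (v j))) = m * y * φ v := by
  classical
  have hl0 : 0 < (ℓ : ℝ)⁻¹ := inv_pos.2 l_pos
  -- the scalar as a matrix
  have hx' : ∀ k, ‖x ^ (ℓ ^ k) - 1‖ ≤ (ℓ : ℝ)⁻¹ ^ (k + 2) := by
    intro k
    have h1 : Bd ((ℓ : ℝ)⁻¹ ^ 2) ((Matrix.diagonal fun _ => x : Matrix (Fin 1) (Fin 1) ℚ_[ℓ]) - 1) := by
      intro i j
      have hij : i = j := Subsingleton.elim _ _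
      subst hij
      rw [Matrix.sub_apply, Matrix.diagonal_apply_eq, Matrix.one_apply_eq]
      exact hx
    have h2 := Bd.pow_pow h1 k 0 0
    rw [Matrix.diagonal_pow, Matrix.sub_apply, Matrix.diagonal_apply_eq, Matrix.one_apply_eq] at h2
    exact h2
  set t : ℕ → ℚ_[ℓ] := fun k => (ℓ : ℚ_[ℓ]) ^ (k + 2) with ht
  have ht0 : ∀ k, t k ≠ 0 := fun k => pow_ne_zero _ l_ne
  have htl : Tendsto t atTop (𝓝 0) := tendsto_l_pow
  set A : ℕ → Matrix (Fin n) (Fin n) ℚ_[ℓ] := fun k => (t k)⁻¹ • (S ^ (ℓ ^ k) - 1) with hA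
  set a : ℕ → ℚ_[ℓ] := fun k => (t k)⁻¹ * (x ^ (ℓ ^ k) - 1) with ha
  have hSA : ∀ k, S ^ (ℓ ^ k) - 1 = t k • A k := fun k => by
    rw [hA, smul_smul, mul_inv_cancel₀ (ht0 k), one_smul]
  have hxa : ∀ k, x ^ (ℓ ^ k) - 1 = t k * a k := fun k => by
    rw [ha, ← mul_assoc, mul_inv_cancel₀ (ht0 k), one_mul]
  have hAb : ∀ k, Bd 1 (A k) := fun k => bd_div (Bd.pow_pow hS k)
  have hab : ∀ k, ‖a k‖ ≤ 1 := by
    intro k
    rw [ha, norm_mul, norm_inv, ht, norm_pow, norm_l]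
    rw [inv_mul_le_one₀ (pow_pos hl0 _)]
    exact hx' k
  obtain ⟨Y, y, f, hf, hY, hy⟩ := exists_limit hAb hab
  have hfa : Tendsto f atTop atTop := hf.tendsto_atTop
  refine ⟨Y, y, ?_, ?_⟩
  · -- the commutator
    intro hcomm
    have hne' : S * P - P * S ≠ 0 := sub_ne_zero.2 hne
    obtain ⟨i0, j0, hij⟩ : ∃ i j, (S * P - P * S) i j ≠ 0 := by
      by_contra hcon
      push Not at hcon
      exact hne' (Matrix.ext hcon)
    set r := ‖(S * P - P * S) i0 j0‖ / 2 with hr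
    have hpos : 0 < ‖(S * P - P * S) i0 j0‖ := norm_pos_iff.2 hij
    have hr0 : 0 < r := half_pos hpos
    have hnot : ¬ Bd r (S * P - P * S) := fun h => absurd (h i0 j0) (not_le.2 (half_lt_self hpos))
    have hlow : ∀ k, ¬ Bd r (A k * P - P * A k) := by
      intro k h
      apply hnot
      apply comm_pow_l hS k hr0.le
      have h1 : S ^ (ℓ ^ k) * P - P * S ^ (ℓ ^ k) = t k • (A k * P - P * A k) := by
        rw [smul_sub, ← Matrix.smul_mul, ← Matrix.mul_smul, ← hSA, sub_mul, mul_sub, one_mul,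
          mul_one]
        abel
      rw [h1]
      have h2 := h.smul (t k)
      refine h2.mono ?_
      rw [ht, norm_pow, norm_l, pow_add]
      refine mul_le_mul_of_nonneg_right ?_ hr0.le
      refine mul_le_of_le_one_right (pow_nonneg hl0.le _) (pow_le_one₀ hl0.le ?_)
      exact inv_le_one_of_one_le₀ one_le_l
    have hlim : Tendsto (fun k => A (f k) * P - P * A (f k)) atTop (𝓝 (Y * P - P * Y)) := by
      have hc : Continuous fun B : Matrix (Fin n) (Fin n) ℚ_[ℓ] => B * P - P * B :=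
        (continuous_id.matrix_mul continuous_const).sub (continuous_const.matrix_mul continuous_id)
      exact (hc.tendsto Y).comp hY
    rw [hcomm, sub_self] at hlim
    have hev : ∀ᶠ k in atTop, Bd r (A (f k) * P - P * A (f k)) := by
      have h1 : ∀ i j, ∀ᶠ k in atTop, ‖(A (f k) * P - P * A (f k)) i j‖ ≤ r := by
        intro i j
        have h2 : Tendsto (fun k => (A (f k) * P - P * A (f k)) i j) atTop (𝓝 0) :=
          ((continuous_apply_apply i j).tendsto
            (0 : Matrix (Fin n) (Fin n) ℚ_[ℓ])).comp hlim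
        have h3 := h2.norm
        rw [norm_zero] at h3
        exact h3.eventually (ge_mem_nhds hr0)
      have h4 : ∀ᶠ k in atTop, ∀ i j, ‖(A (f k) * P - P * A (f k)) i j‖ ≤ r := by
        rw [eventually_all]
        intro i
        rw [eventually_all]
        exact fun j => h1 i j
      exact h4
    obtain ⟨k, hk⟩ := hev.exists
    exact hlow (f k) hk
  · intro κ _ _ φ N m hN hφ v
    -- iterates
    have hit : ∀ (k : ℕ) v, φ (fun l => ((S ^ N) ^ k).mulVec (v l)) = ((x ^ N) ^ m) ^ k * φ v := by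
      intro k
      induction k with
      | zero => intro v; simp
      | succ k ih =>
        intro v
        have h1 : (fun l => ((S ^ N) ^ (k + 1)).mulVec (v l)) =
            fun l => ((S ^ N) ^ k).mulVec ((S ^ N).mulVec (v l)) := by
          funext l
          rw [Matrix.mulVec_mulVec, pow_succ]
        rw [h1, ih, hφ, ← mul_assoc, ← pow_succ]
    -- the differences
    set Z : ℕ → Matrix (Fin n) (Fin n) ℚ_[ℓ] := fun k =>
      (∑ i ∈ Finset.range N, (S ^ (ℓ ^ k)) ^ i) * A k with hZ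
    have hSZ : ∀ k, (S ^ (ℓ ^ k)) ^ N - 1 = t k • Z k := by
      intro k
      rw [hZ, ← Matrix.mul_smul, ← hSA, geom_sum_mul]
    have hS1 : Tendsto (fun k => S ^ (ℓ ^ (f k))) atTop (𝓝 1) := by
      have h1 : (fun k => S ^ (ℓ ^ (f k))) = fun k => t (f k) • A (f k) + 1 := by
        funext k
        rw [← hSA, sub_add_cancel]
      rw [h1]
      have h2 := ((htl.comp hfa).smul hY).add (tendsto_const_nhds (x := (1 : Matrix (Fin n) (Fin n) ℚ_[ℓ])))
      rw [zero_smul, zero_add] at h2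
      exact h2
    have hZl : Tendsto (fun k => Z (f k)) atTop (𝓝 ((N : Matrix (Fin n) (Fin n) ℚ_[ℓ]) * Y)) := by
      have h1 : Tendsto (fun k => ∑ i ∈ Finset.range N, (S ^ (ℓ ^ (f k))) ^ i) atTop
          (𝓝 (N : Matrix (Fin n) (Fin n) ℚ_[ℓ])) := by
        have h2 : (N : Matrix (Fin n) (Fin n) ℚ_[ℓ]) = ∑ i ∈ Finset.range N, 1 ^ i := by simp
        rw [h2]
        refine tendsto_finsetSum _ fun i _ => ?_
        exact hS1.pow i
      exact h1.mul hY
    -- the derivative of the form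
    let φc : ContinuousMultilinearMap ℚ_[ℓ] (fun _ : κ => Fin n → ℚ_[ℓ]) ℚ_[ℓ] :=
      ⟨φ, multilinear_continuous φ⟩
    let d : ℕ → κ → Fin n → ℚ_[ℓ] := fun k l => (t (f k) • Z (f k)).mulVec (v l)
    have hd0 : Tendsto (fun k => (t (f k))⁻¹ • d k) atTop
        (𝓝 fun l => ((N : Matrix (Fin n) (Fin n) ℚ_[ℓ]) * Y).mulVec (v l)) := by
      rw [tendsto_pi_nhds]
      intro l
      have h1 : (fun k => ((t (f k))⁻¹ • d k) l) = fun k => (Z (f k)).mulVec (v l) := by
        funext k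
        rw [Pi.smul_apply]
        change (t (f k))⁻¹ • (t (f k) • Z (f k)).mulVec (v l) = _
        rw [Matrix.smul_mulVec, smul_smul, inv_mul_cancel₀ (ht0 _), one_smul]
      rw [h1]
      have hc : Continuous fun B : Matrix (Fin n) (Fin n) ℚ_[ℓ] => B.mulVec (v l) :=
        continuous_id.matrix_mulVec continuous_const
      exact (hc.tendsto _).comp hZl
    have hdl : Tendsto d atTop (𝓝 0) := by
      have h1 : d = fun k => t (f k) • ((t (f k))⁻¹ • d k) := by
        funext k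
        rw [smul_smul, mul_inv_cancel₀ (ht0 _), one_smul]
      rw [h1]
      have h2 := (htl.comp hfa).smul hd0
      rw [zero_smul] at h2
      exact h2
    have hder := (φc.hasFDerivAt v).hasFDerivWithinAt (s := Set.univ) |>.lim hdl
      (Eventually.of_forall fun _ => Set.mem_univ _) hd0
    -- the values
    have hval : ∀ k, φc (v + d k) = ((x ^ (ℓ ^ (f k))) ^ (N * m)) * φ v := by
      intro k
      change φ (v + d k) = _
      have h1 : v + d k = fun l => ((S ^ N) ^ (ℓ ^ (f k))).mulVec (v l) := by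
        funext l
        change v l + (t (f k) • Z (f k)).mulVec (v l) = _
        rw [← hSZ, Matrix.sub_mulVec, Matrix.one_mulVec, add_sub_cancel, ← pow_mul, ← pow_mul,
          mul_comm N]
      rw [h1, hit]
      congr 1
      rw [← pow_mul, ← pow_mul, ← pow_mul]
      congr 1
      ring
    have hlim2 : Tendsto (fun k => (t (f k))⁻¹ • (φc (v + d k) - φc v)) atTop
        (𝓝 (((N * m : ℕ) : ℚ_[ℓ]) * y * φ v)) := by
      have h1 : (fun k => (t (f k))⁻¹ • (φc (v + d k) - φc v)) = fun k =>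
          (∑ i ∈ Finset.range (N * m), (x ^ (ℓ ^ (f k))) ^ i) * a (f k) * φ v := by
        funext k
        have h2 : φc v = φ v := rfl
        rw [hval, h2, smul_eq_mul, ha]
        have h3 := geom_sum_mul (x ^ (ℓ ^ (f k))) (N * m)
        linear_combination (-(t (f k))⁻¹ * φ v) * h3
      rw [h1]
      have hx1 : Tendsto (fun k => x ^ (ℓ ^ (f k))) atTop (𝓝 1) := by
        have h2 : (fun k => x ^ (ℓ ^ (f k))) = fun k => t (f k) * a (f k) + 1 := by
          funext k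
          rw [← hxa, sub_add_cancel]
        rw [h2]
        have h3 := ((htl.comp hfa).mul hy).add (tendsto_const_nhds (x := (1 : ℚ_[ℓ])))
        rw [zero_mul, zero_add] at h3
        exact h3
      have h4 : Tendsto (fun k => ∑ i ∈ Finset.range (N * m), (x ^ (ℓ ^ (f k))) ^ i) atTop
          (𝓝 ((N * m : ℕ) : ℚ_[ℓ])) := by
        have h5 : ((N * m : ℕ) : ℚ_[ℓ]) = ∑ i ∈ Finset.range (N * m), 1 ^ i := by simp
        rw [h5]
        exact tendsto_finsetSum _ fun i _ => hx1.pow i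
      exact (h4.mul hy).mul tendsto_const_nhds
    have heq := tendsto_nhds_unique hder hlim2
    rw [ContinuousMultilinearMap.linearDeriv_apply] at heq
    have hNY : ∀ j, φc (Function.update v j (((N : Matrix (Fin n) (Fin n) ℚ_[ℓ]) * Y).mulVec (v j))) =
        (N : ℚ_[ℓ]) * φ (Function.update v j (Y.mulVec (v j))) := by
      intro j
      change φ _ = _
      have h1 : ((N : Matrix (Fin n) (Fin n) ℚ_[ℓ]) * Y).mulVec (v j) =
          (N : ℚ_[ℓ]) • Y.mulVec (v j) := by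
        rw [← Matrix.smul_mulVec, Nat.cast_smul_eq_nsmul, nsmul_eq_mul]
      rw [h1, MultilinearMap.map_update_smul, smul_eq_mul]
    rw [Finset.sum_congr rfl fun j _ => hNY j, ← Finset.mul_sum, Nat.cast_mul, mul_assoc, mul_assoc]
      at heq
    have hN0 : (N : ℚ_[ℓ]) ≠ 0 := by exact_mod_cast hN.ne'
    have := mul_left_cancel₀ hN0 heq
    rw [this, mul_assoc]

end Pool.Agent.Q69.MTQ
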