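import Pool.Agent.W516.MT.Stmt

/-!
# The positivity of the Rosati involution
-/

set_option autoImplicit false

namespace Pool.Agent.Q69.MTQ

open Module Pool.Agent.W516.MTS

/-- additive maps to real vector spaces -/
lemma map_rat_real {W T : Type} [AddCommGroup W] [Module ℚ W] [AddCommGroup T] [Module ℝ T]
    (per : W →+ T) (q : ℚ) (w : W) : per (q • w) = (algebraMap ℚ ℝ q) • per w := by
  let _ : Module ℚ T := Module.compHom T (algebraMap ℚ ℝ)
  exact map_rat_smul per q w

/-- **The trace form is negative definite** on the skew endomorphisms which commute with the complex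
structure. -/
theorem ros : S_ROS := by
  intro W T _ _ _ _ _ per n b b' hb ω₀ E hE hI halt hpos P P' hP' hskew htr
  classical
  -- the real endomorphism
  let R : T →ₗ[ℝ] T := P'.restrictScalars ℝ
  have hR : ∀ w, R (per w) = per (P w) := hP'
  have hfd : FiniteDimensional ℝ T := b'.finiteDimensional_of_finite
  have hanti : ∀ u v, E u v = -E v u := by
    intro u v
    have h1 := halt (u + v)
    simp only [map_add, LinearMap.add_apply, halt, zero_add, add_zero] at h1
    linarith
  have hII : ∀ u v, E (Complex.I • u) v = E (Complex.I • v) u := by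
    intro u v
    have h1 := hI (Complex.I • u) v
    rw [smul_smul, Complex.I_mul_I, neg_one_smul, map_neg, LinearMap.neg_apply] at h1
    rw [← h1, hanti u, neg_neg]
  -- the inner product
  let core : InnerProductSpace.Core ℝ T :=
    { inner := fun u v => E (Complex.I • u) v
      conj_inner_symm := fun u v => by
        rw [conj_trivial]
        exact hII v u
      re_inner_nonneg := fun u => by
        change 0 ≤ E (Complex.I • u) u
        by_cases hu : u = 0
        · rw [hu, map_zero]
        · exact (hpos u hu).le
      add_left := fun u v w => by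
        change E (Complex.I • (u + v)) w = _
        rw [smul_add, map_add, LinearMap.add_apply]
      smul_left := fun u v r => by
        change E (Complex.I • (r • u)) v = _
        rw [smul_comm, map_smul, LinearMap.smul_apply, conj_trivial, smul_eq_mul]
      definite := fun u hu => by
        by_contra hne
        exact (hpos u hne).ne' hu }
  let _ : NormedAddCommGroup T := core.toNormedAddCommGroup
  let _ : InnerProductSpace ℝ T := InnerProductSpace.ofCore core.toCore
  have hinner : ∀ u v : T, inner ℝ u v = E (Complex.I • u) v := fun u v => rfl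
  -- skewness of the extension
  have hskewT : ∀ u v, E (R u) v + E u (R v) = 0 := by
    have h1 : (E.comp R) + (E.compl₂ R) = 0 := by
      refine b'.ext fun i => b'.ext fun j => ?_
      rw [LinearMap.add_apply, LinearMap.add_apply, LinearMap.comp_apply, LinearMap.compl₂_apply,
        LinearMap.zero_apply, LinearMap.zero_apply, hb, hb, hR, hR, hE, hE]
      exact_mod_cast hskew (b i) (b j)
    intro u v
    have h2 := congrArg (fun F : T →ₗ[ℝ] T →ₗ[ℝ] ℝ => F u v) h1
    simpa only [LinearMap.add_apply, LinearMap.comp_apply, LinearMap.compl₂_apply,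
      LinearMap.zero_apply] using h2
  have hadj : ∀ u v : T, inner ℝ (R u) v = -inner ℝ u (R v) := by
    intro u v
    rw [hinner, hinner]
    have h1 := hskewT (Complex.I • u) v
    have h2 : R (Complex.I • u) = Complex.I • R u := P'.map_smul Complex.I u
    rw [h2] at h1
    linarith
  -- the trace
  have htrR : LinearMap.trace ℝ T (R ∘ₗ R) = 0 := by
    have h1 : LinearMap.toMatrix b' b' (R ∘ₗ R) =
        (LinearMap.toMatrix b b (P ∘ₗ P)).map (algebraMap ℚ ℝ) := by
      have hcoef : ∀ (Q : W →ₗ[ℚ] W) (Q' : T →ₗ[ℝ] T), (∀ w, Q' (per w) = per (Q w)) →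
          LinearMap.toMatrix b' b' Q' = (LinearMap.toMatrix b b Q).map (algebraMap ℚ ℝ) := by
        intro Q Q' hQ
        ext i j
        rw [LinearMap.toMatrix_apply, Matrix.map_apply, LinearMap.toMatrix_apply, hb, hQ]
        have h2 : per (Q (b j)) = ∑ l, (algebraMap ℚ ℝ (b.repr (Q (b j)) l)) • b' l := by
          conv_lhs => rw [← b.sum_repr (Q (b j))]
          rw [map_sum]
          refine Finset.sum_congr rfl fun l _ => ?_
          rw [hb]
          exact map_rat_real per _ _
        rw [h2, map_sum, Finsupp.finsetSum_apply]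
        simp only [map_smul, Finsupp.smul_apply, Basis.repr_self, smul_eq_mul]
        rw [Finset.sum_eq_single i]
        · rw [Finsupp.single_eq_same, mul_one]
        · intro l _ hl
          rw [Finsupp.single_eq_of_ne (by exact fun h => hl h.symm), mul_zero]
        · intro h
          exact absurd (Finset.mem_univ i) h
      exact hcoef (P ∘ₗ P) (R ∘ₗ R) fun w => by
        rw [LinearMap.comp_apply, LinearMap.comp_apply, hR, hR]
    rw [LinearMap.trace_eq_matrix_trace ℝ b', h1, ← AddMonoidHom.map_trace,
      ← LinearMap.trace_eq_matrix_trace ℚ b, htr, map_zero]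
  have hzero : ∀ i, R (stdOrthonormalBasis ℝ T i) = 0 := by
    have h1 := LinearMap.trace_eq_sum_inner (R ∘ₗ R) (stdOrthonormalBasis ℝ T)
    rw [htrR] at h1
    have h2 : ∀ i, inner ℝ (stdOrthonormalBasis ℝ T i) ((R ∘ₗ R) (stdOrthonormalBasis ℝ T i)) =
        -(‖R (stdOrthonormalBasis ℝ T i)‖ ^ 2) := by
      intro i
      have h3 := hadj (stdOrthonormalBasis ℝ T i) (R (stdOrthonormalBasis ℝ T i))
      rw [LinearMap.comp_apply, ← real_inner_self_eq_norm_sq, h3, neg_neg]
    rw [Finset.sum_congr rfl fun i _ => h2 i, Finset.sum_neg_distrib, zero_eq_neg] at h1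
    intro i
    have h4 := (Finset.sum_eq_zero_iff_of_nonneg fun i _ => sq_nonneg _).1 h1 i (Finset.mem_univ i)
    exact norm_eq_zero.1 (pow_eq_zero_iff (two_ne_zero)|>.1 h4)
  have hR0 : R = 0 := (stdOrthonormalBasis ℝ T).toBasis.ext fun i => by
    rw [OrthonormalBasis.coe_toBasis, hzero, LinearMap.zero_apply]
  have hinj : ∀ w, per w = 0 → w = 0 := by
    intro w hw
    have h1 : per w = ∑ l, (algebraMap ℚ ℝ (b.repr w l)) • b' l := by
      conv_lhs => rw [← b.sum_repr w]
      rw [map_sum]
      refine Finset.sum_congr rfl fun l _ => ?_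
      rw [hb]
      exact map_rat_real per _ _
    rw [hw] at h1
    have h2 := Fintype.linearIndependent_iff.1 b'.linearIndependent _ h1.symm
    rw [← b.sum_repr w]
    refine Finset.sum_eq_zero fun l _ => ?_
    have h3 : b.repr w l = 0 := by
      have := h2 l
      exact (algebraMap ℚ ℝ).injective (by rw [this, map_zero])
    rw [h3, zero_smul]
  refine LinearMap.ext fun w => ?_
  apply hinj
  rw [← hR, hR0, LinearMap.zero_apply]

end Pool.Agent.Q69.MTQ
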