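import Pool.Agent.W516.Cartan

/-!
# The Lie algebra of a semisimple representation acts semisimply
-/

set_option autoImplicit false
set_option linter.unusedSectionVars false

namespace Pool.Agent.Q69.MTQ

open Module Pool.Agent.W516.KC

variable {k V Γ : Type} [Field k] [AddCommGroup V] [Module k V] [FiniteDimensional k V] [Group Γ]
  (ρ : Representation k Γ V) (𝔥 : Submodule k (Module.End k V))

/-- stable subspaces as submodules over the algebra generated by `𝔥` -/
def toSub (U : Submodule k V) (hU : ∀ X ∈ 𝔥, ∀ u ∈ U, X u ∈ U) :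
    Submodule (Algebra.adjoin k (𝔥 : Set (Module.End k V))) V where
  carrier := U
  add_mem' := U.add_mem
  zero_mem' := U.zero_mem
  smul_mem' := by
    rintro ⟨a, ha⟩ u hu
    have key : ∀ u ∈ U, a u ∈ U := by
      clear hu u
      induction ha using Algebra.adjoin_induction with
      | mem x hx => exact fun u hu => hU x hx u hu
      | algebraMap r => intro u hu; rw [Module.algebraMap_end_apply]; exact U.smul_mem r hu
      | add x y _ _ hx hy => intro u hu; rw [LinearMap.add_apply]; exact U.add_mem (hx u hu) (hy u hu)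
      | mul x y _ _ hx hy => intro u hu; rw [Module.End.mul_apply]; exact hx _ (hy u hu)
    exact key u hu

lemma mem_toSub {U : Submodule k V} {hU : ∀ X ∈ 𝔥, ∀ u ∈ U, X u ∈ U} {v : V} :
    v ∈ toSub 𝔥 U hU ↔ v ∈ U := Iff.rfl

lemma stable_of_sub (U : Submodule (Algebra.adjoin k (𝔥 : Set (Module.End k V))) V)
    {X : Module.End k V} (hX : X ∈ 𝔥) {u : V} (hu : u ∈ U) : X u ∈ U :=
  U.smul_mem (⟨X, Algebra.subset_adjoin hX⟩ : Algebra.adjoin k (𝔥 : Set (Module.End k V))) hu

/-- the image of a stable subspace under a group element -/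
def moveSub (hconj : ∀ (s : Γ), ∀ X ∈ 𝔥, ρ s * X * ρ s⁻¹ ∈ 𝔥) (s : Γ)
    (U : Submodule (Algebra.adjoin k (𝔥 : Set (Module.End k V))) V) :
    Submodule (Algebra.adjoin k (𝔥 : Set (Module.End k V))) V :=
  toSub 𝔥 ((U.restrictScalars k).comap (ρ s⁻¹)) (by
    intro X hX u hu
    rw [Submodule.mem_comap, Submodule.restrictScalars_mem] at hu ⊢
    have h1 := hconj s⁻¹ X hX
    rw [inv_inv] at h1
    have h2 := stable_of_sub 𝔥 U h1 hu
    have h3 : (ρ s⁻¹ * X * ρ s) (ρ s⁻¹ u) = ρ s⁻¹ (X u) := by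
      rw [Module.End.mul_apply, Module.End.mul_apply, ← Module.End.mul_apply (ρ s), ← map_mul,
        mul_inv_cancel, map_one, Module.End.one_apply]
    rwa [h3] at h2)

lemma mem_moveSub (hconj : ∀ (s : Γ), ∀ X ∈ 𝔥, ρ s * X * ρ s⁻¹ ∈ 𝔥) (s : Γ)
    (U : Submodule (Algebra.adjoin k (𝔥 : Set (Module.End k V))) V) (v : V) :
    v ∈ moveSub ρ 𝔥 hconj s U ↔ ρ s⁻¹ v ∈ U := Iff.rfl

lemma moveSub_atom (hconj : ∀ (s : Γ), ∀ X ∈ 𝔥, ρ s * X * ρ s⁻¹ ∈ 𝔥) (s : Γ)
    {U : Submodule (Algebra.adjoin k (𝔥 : Set (Module.End k V))) V} (hU : IsAtom U) :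
    IsAtom (moveSub ρ 𝔥 hconj s U) := by
  have hcancel : ∀ t v, ρ t (ρ t⁻¹ v) = v := fun t v => by
    rw [← Module.End.mul_apply, ← map_mul, mul_inv_cancel, map_one, Module.End.one_apply]
  have hcancel' : ∀ t v, ρ t⁻¹ (ρ t v) = v := fun t v => by
    rw [← Module.End.mul_apply, ← map_mul, inv_mul_cancel, map_one, Module.End.one_apply]
  constructor
  · intro h
    apply hU.1
    rw [Submodule.eq_bot_iff]
    intro u hu
    have h1 : ρ s u ∈ moveSub ρ 𝔥 hconj s U := by
      rw [mem_moveSub, hcancel']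
      exact hu
    rw [h, Submodule.mem_bot] at h1
    rw [← hcancel' s u, h1, map_zero]
  · intro W hW
    have h1 : moveSub ρ 𝔥 hconj s⁻¹ W < U := by
      refine lt_of_le_of_ne ?_ ?_
      · intro v hv
        rw [mem_moveSub, inv_inv] at hv
        have h2 := hW.le hv
        rw [mem_moveSub, hcancel'] at h2
        exact h2
      · intro h
        apply hW.not_ge
        intro v hv
        rw [mem_moveSub, ← h, mem_moveSub, inv_inv, hcancel] at hv
        exact hv
    have h2 := hU.2 _ h1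
    rw [Submodule.eq_bot_iff]
    intro w hw
    have h3 : ρ s⁻¹ w ∈ moveSub ρ 𝔥 hconj s⁻¹ W := by
      rw [mem_moveSub, inv_inv, hcancel]
      exact hw
    rw [h2, Submodule.mem_bot] at h3
    rw [← hcancel s w, h3, map_zero]

/-- **The Lie algebra acts semisimply.** -/
theorem semi_of (hconj : ∀ (s : Γ), ∀ X ∈ 𝔥, ρ s * X * ρ s⁻¹ ∈ 𝔥)
    (hss : ∀ U : Submodule k V, (∀ s, ∀ u ∈ U, ρ s u ∈ U) →
      ∃ U' : Submodule k V, (∀ s, ∀ u ∈ U', ρ s u ∈ U') ∧ IsCompl U U')
    (hcomm : ∀ P : Module.End k V, (∀ s, P * ρ s = ρ s * P) → ∀ X ∈ 𝔥, X * P = P * X) :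
    Semi 𝔥 := by
  classical
  -- the socle
  let A := Algebra.adjoin k (𝔥 : Set (Module.End k V))
  let S : Submodule A V := sSup {U | IsAtom U}
  have hSΓ : ∀ s, ∀ u ∈ S, ρ s u ∈ S := by
    intro s
    have h1 : S ≤ moveSub ρ 𝔥 hconj s⁻¹ S := by
      refine sSup_le fun U hU v hv => ?_
      rw [mem_moveSub, inv_inv]
      have h2 : moveSub ρ 𝔥 hconj s U ≤ S := le_sSup (moveSub_atom ρ 𝔥 hconj s hU)
      apply h2
      rw [mem_moveSub, ← Module.End.mul_apply, ← map_mul, inv_mul_cancel, map_one,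
        Module.End.one_apply]
      exact hv
    intro u hu
    have h3 := h1 hu
    rwa [mem_moveSub, inv_inv] at h3
  obtain ⟨S', hS'Γ, hcompl⟩ := hss (S.restrictScalars k) (fun s u hu => hSΓ s u hu)
  -- the projection commutes with the group
  let P : Module.End k V := Submodule.subtype S' ∘ₗ S'.projectionOnto (S.restrictScalars k) hcompl.symm
  have hP1 : ∀ v ∈ S', P v = v := fun v hv => by
    change ((S'.projectionOnto (S.restrictScalars k) hcompl.symm v : S') : V) = v
    rw [Submodule.projectionOnto_apply_left hcompl.symm ⟨v, hv⟩]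
  have hP2 : ∀ v ∈ S.restrictScalars k, P v = 0 := fun v hv => by
    change ((S'.projectionOnto (S.restrictScalars k) hcompl.symm v : S') : V) = 0
    rw [Submodule.projectionOnto_apply_right hcompl.symm ⟨v, hv⟩]
    rfl
  have hdec : ∀ v : V, ∃ a ∈ S.restrictScalars k, ∃ b ∈ S', a + b = v := fun v =>
    Submodule.mem_sup.1 (by rw [hcompl.sup_eq_top]; trivial)
  have hPΓ : ∀ s, P * ρ s = ρ s * P := by
    intro s
    refine LinearMap.ext fun v => ?_
    obtain ⟨a, ha, b, hb, rfl⟩ := hdec v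
    rw [Module.End.mul_apply, Module.End.mul_apply, map_add, map_add, map_add, hP2 a ha,
      hP1 b hb, hP2 _ (hSΓ s a ha), hP1 _ (hS'Γ s b hb), zero_add, zero_add]
  have hPX := hcomm P hPΓ
  have hS'h : ∀ X ∈ 𝔥, ∀ u ∈ S', X u ∈ S' := by
    intro X hX u hu
    have h1 := congrArg (fun F : Module.End k V => F u) (hPX X hX)
    simp only [Module.End.mul_apply, hP1 u hu] at h1
    rw [h1]
    exact (S'.projectionOnto (S.restrictScalars k) hcompl.symm (X u)).2
  -- the complement of the socle is zero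
  have hbot : toSub 𝔥 S' hS'h = ⊥ := by
    by_contra hne
    have hfin : IsArtinian A V := isArtinian_of_tower k inferInstance
    have hat : IsAtomic (Submodule A V) := isAtomic_of_orderBot_wellFounded_lt hfin.wf
    obtain ⟨U, hU, hUS⟩ := (eq_bot_or_exists_atom_le (toSub 𝔥 S' hS'h)).resolve_left hne
    apply hU.1
    rw [Submodule.eq_bot_iff]
    intro u hu
    have h1 : u ∈ S.restrictScalars k := (le_sSup hU : U ≤ S) hu
    have h2 : u ∈ S' := hUS hu
    exact Submodule.disjoint_def.1 hcompl.disjoint u h1 h2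
  have htop : S = ⊤ := by
    rw [eq_top_iff]
    intro v _
    obtain ⟨a, ha, b, hb, rfl⟩ := hdec v
    have h1 : b ∈ toSub 𝔥 S' hS'h := hb
    rw [hbot, Submodule.mem_bot] at h1
    rw [h1, add_zero]
    exact ha
  have hcl : ComplementedLattice (Submodule A V) := complementedLattice_of_sSup_atoms_eq_top htop
  intro U hU
  obtain ⟨U', hU'⟩ := exists_isCompl (toSub 𝔥 U hU)
  refine ⟨U'.restrictScalars k, fun X hX u hu => stable_of_sub 𝔥 U' hX hu, ?_⟩
  constructor
  · rw [Submodule.disjoint_def]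
    intro x hx hx'
    exact Submodule.disjoint_def.1 hU'.disjoint x hx hx'
  · rw [codisjoint_iff, eq_top_iff]
    intro v _
    have h1 : v ∈ toSub 𝔥 U hU ⊔ U' := by rw [hU'.sup_eq_top]; trivial
    obtain ⟨a, ha, b, hb, rfl⟩ := Submodule.mem_sup.1 h1
    exact Submodule.add_mem_sup ha hb

end Pool.Agent.Q69.MTQ
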