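import Pool.Agent.Q69.MTQ.Com
import Pool.Agent.Q69.MTQ.Semi
import Pool.Agent.Q69.MTQ.Ros
import Pool.Agent.W516.MT.Main2

/-!
# One quartic Tate class decides the Mumford-Tate conjecture
-/

set_option autoImplicit false

namespace Pool.Agent.Q69.MTQ

open Module TensorProduct Pool.Agent.H204R3.SP Pool.Agent.H204R3.GP Pool.Agent.W516.KC
  Pool.Agent.W516.MTD Pool.Agent.W516.DR Pool.Agent.W516.MTM

variable {ℓ : ℕ} [hℓ : Fact ℓ.Prime] {W T : Type} [AddCommGroup W] [Module ℚ W]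
  [FiniteDimensional ℚ W] [AddCommGroup T] [Module ℂ T] (per : W →+ T)
  {Γ : Type} [Group Γ] [TopologicalSpace Γ] [IsTopologicalGroup Γ] [CompactSpace Γ]
  (ρ : Representation ℚ_[ℓ] Γ (ℚ_[ℓ] ⊗[ℚ] W)) (χ : Γ →* ℚ_[ℓ])
  (ω₀ : W →ₗ[ℚ] W →ₗ[ℚ] ℚ) (ω : ℚ_[ℓ] ⊗[ℚ] W →ₗ[ℚ_[ℓ]] ℚ_[ℓ] ⊗[ℚ] W →ₗ[ℚ_[ℓ]] ℚ_[ℓ])

/-- **One quartic Tate class, fixed by the whole group, decides the Mumford-Tate conjecture.** -/
theorem quartic (hper : Pool.Agent.W516.MTD.IsRationalStructure per) (hR : IsRiemannForm per ω₀)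
    (hωω : ∀ u v : W, ω ((1 : ℚ_[ℓ]) ⊗ₜ[ℚ] u) ((1 : ℚ_[ℓ]) ⊗ₜ[ℚ] v) = algebraMap ℚ ℚ_[ℓ] (ω₀ u v))
    (hωρ : ∀ s u v, ω (ρ s u) (ρ s v) = χ s * ω u v)
    (hρ : ContinuousRep ρ) (hχ : Continuous χ) (hss : Semisimple ρ) (hF : Faltings per ρ)
    (hD : Deligne per ρ χ) (hC : Centres per ρ χ) :
    ∃ Θ : MultilinearMap ℚ_[ℓ] (fun _ : Fin 2 × Fin 2 => ℚ_[ℓ] ⊗[ℚ] W) ℚ_[ℓ],
      (∀ s v, Θ (fun l => ρ s (v l)) = χ s ^ 2 * Θ v) ∧
      (Pool.Agent.W516.MTD.IsHodgeCombination per Θ → ∀ (m : ℕ)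
        (φ : MultilinearMap ℚ_[ℓ] (fun _ : Fin m × Fin 2 => ℚ_[ℓ] ⊗[ℚ] W) ℚ_[ℓ]),
        IsTateTensor ρ χ m φ → Pool.Agent.W516.MTD.IsHodgeCombination per φ) := by
  have hcomm : ∀ P : Module.End ℚ_[ℓ] (ℚ_[ℓ] ⊗[ℚ] W), (∀ X ∈ lieT ρ χ, X * P = P * X) →
      P ∈ endos ℚ_[ℓ] per := fun P hP => hF P (commute_of_lieT ρ χ hρ hχ hP)
  have hlc : ∀ X ∈ lieT ρ χ, ∀ P ∈ endos ℚ_[ℓ] per, X * P = P * X := fun X hX P hP =>
    lieT_comm per ρ χ ω₀ ω hper hR hωω hωρ hD hX hP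
  have hsemi : Semi (lieT ρ χ) := by
    refine semi_of ρ (lieT ρ χ) (fun s X hX => lieT_conj ρ χ s hX) hss fun P hP X hX => ?_
    refine hlc X hX P (hF P ⟨⊤, inferInstance, fun s _ v => ?_⟩)
    exact congrArg (fun F : Module.End ℚ_[ℓ] (ℚ_[ℓ] ⊗[ℚ] W) => F v) (hP s)
  have hnd₀ := riemann_nondeg per ω₀ hper hR
  have hnd := nondeg_ext ω₀ ω hωω hnd₀
  have hRH := riemann_hodge per ω₀ hR
  have hnt := lieT_trace per ρ χ ω₀ ω hper hR hωω hωρ hD hC hcomm hsemi ros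
  refine ⟨Pool.Agent.W516.KC2.casimir (lieT ρ χ) hnt ω, fun s v => ?_, fun hΘ => ?_⟩
  · refine Pool.Agent.W516.KC2.casimir_inv (lieT ρ χ) hnt ω (g := ρ s) (g' := ρ s⁻¹) ?_ ?_ (hωρ s) ?_ ?_ v
    · rw [← map_mul, inv_mul_cancel, map_one]
    · rw [← map_mul, mul_inv_cancel, map_one]
    · intro X hX
      exact lieT_conj ρ χ s hX
    · intro X hX
      have h1 := lieT_conj ρ χ s⁻¹ hX
      rwa [inv_inv] at h1
  · intro m φ hφ
    -- the endomorphisms that kill the Hodge classes are in the Lie algebra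
    have hmem : ∀ Z₀ : Module.End ℚ W, (∀ (m' : ℕ)
        (ψ : MultilinearMap ℚ (fun _ : Fin m' × Fin 2 => W) ℚ), IsHodgeTensor per ψ →
          Kills Z₀ ψ) → Z₀.baseChange ℚ_[ℓ] ∈ lieT ρ χ := by
      intro Z₀ hk
      have hZs : IsSkew ω (Z₀.baseChange ℚ_[ℓ]) :=
        skew_ext ω₀ ω hωω ((kills_one2 ω₀ Z₀).1 (hk 1 _ (one2_hodge per ω₀ hRH)))
      have hZk : Kills (Z₀.baseChange ℚ_[ℓ]) (Pool.Agent.W516.KC2.casimir (lieT ρ χ) hnt ω) :=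
        kills_span (fun ψ => IsHodgeTensor per ψ) Z₀ (hk 2) _ ((hc_iff per _).1 hΘ)
      obtain ⟨Y, hY, hYc⟩ := Pool.Agent.W516.KC2.mem_of_kills_casimir (lieT ρ χ) hnt ω
        (fun X hX Y hY => lieT_bracket ρ χ hX hY) hnd hZs hZk
      have h1 : Z₀.baseChange ℚ_[ℓ] - Y ∈ lieT ρ χ := by
        refine hC _ (hcomm _ hYc) (fun P hP => ?_) (fun m φ hφ => ?_)
        · have e1 := comm_endos per ω₀ hper hR Z₀ hk hP
          have e2 := hlc Y hY P hP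
          refine LinearMap.ext fun z => ?_
          have e3 := congrArg (fun f : Module.End ℚ_[ℓ] (ℚ_[ℓ] ⊗[ℚ] W) => f z) e1
          have e4 := congrArg (fun f : Module.End ℚ_[ℓ] (ℚ_[ℓ] ⊗[ℚ] W) => f z) e2
          simp only [Module.End.mul_apply] at e3 e4
          rw [Module.End.mul_apply, Module.End.mul_apply, LinearMap.sub_apply, LinearMap.sub_apply,
            map_sub, e3, e4]
        · have h2 := kills_span (fun ψ => IsHodgeTensor per ψ) Z₀ (hk m) φ ((hc_iff per φ).1 hφ)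
          have h3 := lieT_hc per ρ χ hD hY φ hφ
          intro v
          have h4 : ∀ j, φ (Function.update v j ((Z₀.baseChange ℚ_[ℓ] - Y) (v j))) =
              φ (Function.update v j (Z₀.baseChange ℚ_[ℓ] (v j))) -
                φ (Function.update v j (Y (v j))) := by
            intro j
            rw [LinearMap.sub_apply, MultilinearMap.map_update_sub]
          rw [Finset.sum_congr rfl (fun j _ => h4 j), Finset.sum_sub_distrib, h2 v, h3 v, sub_zero]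
      have h2 : Z₀.baseChange ℚ_[ℓ] = (Z₀.baseChange ℚ_[ℓ] - Y) + Y := by abel
      rw [h2]
      exact Submodule.add_mem _ h1 hY
    rw [hc_iff]
    refine form_mem_span (fun ψ => IsHodgeTensor per ψ) φ fun lam => ?_
    refine hodge_of_kills per hper _ fun Z₀ hk => ?_
    exact kills_fcmp lam φ Z₀ (hmem Z₀ hk m φ hφ)

end Pool.Agent.Q69.MTQ
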