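import Mathlib

/-!
# Powers of `ℓ`-adic matrices close to one and their logarithms
-/

set_option autoImplicit false

namespace Pool.Agent.Q69.MTQ

open Filter Topology Matrix

variable {ℓ : ℕ} [hℓ : Fact ℓ.Prime] {n : ℕ}

/-- all entries have norm at most `r` -/
def Bd (r : ℝ) (A : Matrix (Fin n) (Fin n) ℚ_[ℓ]) : Prop := ∀ i j, ‖A i j‖ ≤ r

lemma Bd.mono {r s : ℝ} {A : Matrix (Fin n) (Fin n) ℚ_[ℓ]} (h : Bd r A) (hrs : r ≤ s) : Bd s A :=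
  fun i j => (h i j).trans hrs

lemma Bd.add {r : ℝ} {A B : Matrix (Fin n) (Fin n) ℚ_[ℓ]} (hA : Bd r A) (hB : Bd r B) :
    Bd r (A + B) := fun i j =>
  (Padic.nonarchimedean (A i j) (B i j)).trans (max_le (hA i j) (hB i j))

lemma Bd.neg {r : ℝ} {A : Matrix (Fin n) (Fin n) ℚ_[ℓ]} (hA : Bd r A) : Bd r (-A) := fun i j => by
  rw [Matrix.neg_apply, norm_neg]; exact hA i j

lemma Bd.sub {r : ℝ} {A B : Matrix (Fin n) (Fin n) ℚ_[ℓ]} (hA : Bd r A) (hB : Bd r B) :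
    Bd r (A - B) := by
  rw [sub_eq_add_neg]; exact hA.add hB.neg

lemma Bd.zero {r : ℝ} (hr : 0 ≤ r) : Bd r (0 : Matrix (Fin n) (Fin n) ℚ_[ℓ]) := fun i j => by
  rw [Matrix.zero_apply, norm_zero]; exact hr

lemma Bd.sum {ι : Type*} {r : ℝ} (hr : 0 ≤ r) (s : Finset ι)
    {A : ι → Matrix (Fin n) (Fin n) ℚ_[ℓ]} (hA : ∀ i ∈ s, Bd r (A i)) : Bd r (∑ i ∈ s, A i) := by
  classical
  induction s using Finset.induction_on with
  | empty => rw [Finset.sum_empty]; exact Bd.zero hr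
  | insert a s ha ih =>
    rw [Finset.sum_insert ha]
    exact (hA a (Finset.mem_insert_self _ _)).add
      (ih fun i hi => hA i (Finset.mem_insert_of_mem hi))

lemma norm_sum_le {ι : Type*} {r : ℝ} (hr : 0 ≤ r) (s : Finset ι) {a : ι → ℚ_[ℓ]}
    (ha : ∀ i ∈ s, ‖a i‖ ≤ r) : ‖∑ i ∈ s, a i‖ ≤ r := by
  classical
  induction s using Finset.induction_on with
  | empty => rw [Finset.sum_empty, norm_zero]; exact hr
  | insert b s hb ih =>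
    rw [Finset.sum_insert hb]
    exact (Padic.nonarchimedean _ _).trans (max_le (ha b (Finset.mem_insert_self _ _))
      (ih fun i hi => ha i (Finset.mem_insert_of_mem hi)))

lemma Bd.mul {r s : ℝ} (hr : 0 ≤ r) (hs : 0 ≤ s) {A B : Matrix (Fin n) (Fin n) ℚ_[ℓ]}
    (hA : Bd r A) (hB : Bd s B) : Bd (r * s) (A * B) := fun i j => by
  rw [Matrix.mul_apply]
  refine norm_sum_le (mul_nonneg hr hs) _ fun k _ => ?_
  rw [norm_mul]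
  exact mul_le_mul (hA i k) (hB k j) (norm_nonneg _) hr

lemma Bd.one : Bd 1 (1 : Matrix (Fin n) (Fin n) ℚ_[ℓ]) := fun i j => by
  rw [Matrix.one_apply]
  split_ifs
  · rw [norm_one]
  · rw [norm_zero]; exact zero_le_one

lemma Bd.smul {r : ℝ} {A : Matrix (Fin n) (Fin n) ℚ_[ℓ]} (hA : Bd r A) (c : ℚ_[ℓ]) :
    Bd (‖c‖ * r) (c • A) := fun i j => by
  rw [Matrix.smul_apply, smul_eq_mul, norm_mul]
  exact mul_le_mul_of_nonneg_left (hA i j) (norm_nonneg _)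

lemma Bd.of_sub_one {ε : ℝ} (hε1 : ε ≤ 1) {S : Matrix (Fin n) (Fin n) ℚ_[ℓ]}
    (hS : Bd ε (S - 1)) : Bd 1 S := by
  have h1 : S = (S - 1) + 1 := by abel
  rw [h1]
  exact (hS.mono hε1).add Bd.one

/-- powers of matrices close to one -/
lemma Bd.pow {ε : ℝ} (hε : 0 ≤ ε) (hε1 : ε ≤ 1) {S : Matrix (Fin n) (Fin n) ℚ_[ℓ]}
    (hS : Bd ε (S - 1)) (i : ℕ) : Bd ε (S ^ i - 1) := by
  induction i with
  | zero => rw [pow_zero, sub_self]; exact Bd.zero hε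
  | succ i ih =>
    have h1 : S ^ (i + 1) - 1 = (S ^ i - 1) * S + (S - 1) := by
      rw [pow_succ, sub_mul, one_mul]; abel
    rw [h1]
    refine Bd.add ?_ hS
    have h2 := Bd.mul hε zero_le_one ih (Bd.of_sub_one hε1 hS)
    rwa [mul_one] at h2

lemma norm_l : ‖((ℓ : ℕ) : ℚ_[ℓ])‖ = (ℓ : ℝ)⁻¹ := Padic.norm_p

lemma l_pos : 0 < (ℓ : ℝ) := by exact_mod_cast hℓ.out.pos

lemma one_le_l : 1 ≤ (ℓ : ℝ) := by exact_mod_cast hℓ.out.one_le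

/-- the `ℓ`-th power is closer to one -/
lemma Bd.pow_l {ε : ℝ} (hε : 0 ≤ ε) (hε1 : ε ≤ (ℓ : ℝ)⁻¹) {S : Matrix (Fin n) (Fin n) ℚ_[ℓ]}
    (hS : Bd ε (S - 1)) : Bd ((ℓ : ℝ)⁻¹ * ε) (S ^ ℓ - 1) := by
  have hl1 : (ℓ : ℝ)⁻¹ ≤ 1 := inv_le_one_of_one_le₀ one_le_l
  have h1 : S ^ ℓ - 1 = (ℓ : ℚ_[ℓ]) • (S - 1) + ∑ i ∈ Finset.range ℓ, (S ^ i - 1) * (S - 1) := by
    rw [← geom_sum_mul S ℓ, ← Finset.sum_mul, Finset.sum_sub_distrib, Finset.sum_const,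
      Finset.card_range, nsmul_one, sub_mul]
    have h2 : ((ℓ : ℚ_[ℓ]) • (S - 1)) = ((ℓ : ℕ) : Matrix (Fin n) (Fin n) ℚ_[ℓ]) * (S - 1) := by
      rw [Nat.cast_smul_eq_nsmul, nsmul_eq_mul]
    rw [h2]
    abel
  rw [h1]
  refine Bd.add ?_ (Bd.sum (mul_nonneg (inv_nonneg.2 l_pos.le) hε) _ fun i _ => ?_)
  · have h2 := hS.smul (ℓ : ℚ_[ℓ])
    rwa [norm_l] at h2
  · have h2 := Bd.mul hε hε (Bd.pow hε (hε1.trans hl1) hS i) hS
    exact h2.mono (mul_le_mul_of_nonneg_right hε1 hε)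

/-- the powers with exponent a power of `ℓ` -/
lemma Bd.pow_pow {S : Matrix (Fin n) (Fin n) ℚ_[ℓ]} (hS : Bd ((ℓ : ℝ)⁻¹ ^ 2) (S - 1)) (k : ℕ) :
    Bd ((ℓ : ℝ)⁻¹ ^ (k + 2)) (S ^ (ℓ ^ k) - 1) := by
  have hl0 : 0 ≤ (ℓ : ℝ)⁻¹ := inv_nonneg.2 l_pos.le
  have hl1 : (ℓ : ℝ)⁻¹ ≤ 1 := inv_le_one_of_one_le₀ one_le_l
  induction k with
  | zero => rw [pow_zero, pow_one]; exact hS
  | succ k ih =>
    have h0 : S ^ (ℓ ^ (k + 1)) = (S ^ (ℓ ^ k)) ^ ℓ := by rw [pow_succ, pow_mul]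
    rw [h0]
    have h1 := Bd.pow_l (pow_nonneg hl0 _) (by
      rw [pow_succ]
      exact mul_le_of_le_one_left hl0 (pow_le_one₀ hl0 hl1)) ih
    have h2 : (ℓ : ℝ)⁻¹ ^ (k + 1 + 2) = (ℓ : ℝ)⁻¹ * (ℓ : ℝ)⁻¹ ^ (k + 2) := by ring
    rw [h2]
    exact h1

/-- the commutator with a power -/
lemma comm_pow (S P : Matrix (Fin n) (Fin n) ℚ_[ℓ]) (m : ℕ) :
    S ^ m * P - P * S ^ m = ∑ i ∈ Finset.range m, S ^ i * (S * P - P * S) * S ^ (m - 1 - i) := by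
  induction m with
  | zero => simp
  | succ m ih =>
    have h1 : S ^ (m + 1) * P - P * S ^ (m + 1) =
        S ^ m * (S * P - P * S) + (S ^ m * P - P * S ^ m) * S := by
      rw [pow_succ, mul_sub, sub_mul, ← mul_assoc (S ^ m) S P, ← mul_assoc (S ^ m) P S,
        mul_assoc P (S ^ m) S]
      abel
    rw [h1, ih, Finset.sum_range_succ, Finset.sum_mul, add_comm]
    congr 1
    · refine Finset.sum_congr rfl fun i hi => ?_
      have hi' := Finset.mem_range.1 hi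
      have h2 : m + 1 - 1 - i = (m - 1 - i) + 1 := by omega
      rw [h2, pow_succ]
      simp only [mul_assoc]
    · rw [show m + 1 - 1 - m = 0 by omega, pow_zero, mul_one]

/-- the commutator with the `ℓ`-th power -/
lemma comm_l {ε : ℝ} (hε : 0 ≤ ε) (hε1 : ε < (ℓ : ℝ)⁻¹) {S P : Matrix (Fin n) (Fin n) ℚ_[ℓ]}
    (hS : Bd ε (S - 1)) {r : ℝ} (hr : 0 ≤ r)
    (h : Bd ((ℓ : ℝ)⁻¹ * r) (S ^ ℓ * P - P * S ^ ℓ)) : Bd r (S * P - P * S) := by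
  have hl0 : 0 < (ℓ : ℝ)⁻¹ := inv_pos.2 l_pos
  have hl1 : (ℓ : ℝ)⁻¹ ≤ 1 := inv_le_one_of_one_le₀ one_le_l
  set C := S * P - P * S with hC
  -- the largest norm of the entries of `C`
  rcases Nat.eq_zero_or_pos n with hn | hn
  · intro i
    exact absurd i.2 (by omega)
  have hne : (Finset.univ : Finset (Fin n × Fin n)).Nonempty := ⟨(⟨0, hn⟩, ⟨0, hn⟩), Finset.mem_univ _⟩
  obtain ⟨⟨i0, j0⟩, -, hmax⟩ := Finset.exists_max_image Finset.univ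
    (fun p : Fin n × Fin n => ‖C p.1 p.2‖) hne
  set c := ‖C i0 j0‖ with hc
  have hCc : Bd c C := fun i j => hmax (i, j) (Finset.mem_univ _)
  have hc0 : 0 ≤ c := norm_nonneg _
  have hS1 := Bd.of_sub_one (hε1.le.trans hl1) hS
  have hpow1 : ∀ i, Bd 1 (S ^ i) := fun i =>
    Bd.of_sub_one (hε1.le.trans hl1) (Bd.pow hε (hε1.le.trans hl1) hS i)
  have hD : ∀ i ∈ Finset.range ℓ, Bd (ε * c) (S ^ i * C * S ^ (ℓ - 1 - i) - C) := by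
    intro i _
    have h1 : S ^ i * C * S ^ (ℓ - 1 - i) - C =
        (S ^ i - 1) * C * S ^ (ℓ - 1 - i) + C * (S ^ (ℓ - 1 - i) - 1) := by
      rw [sub_mul (S ^ i) 1 C, sub_mul (S ^ i * C), mul_sub C, one_mul, mul_one]
      abel
    rw [h1]
    refine Bd.add ?_ ?_
    · have h2 := Bd.mul (mul_nonneg hε hc0) zero_le_one
        (Bd.mul hε hc0 (Bd.pow hε (hε1.le.trans hl1) hS i) hCc) (hpow1 (ℓ - 1 - i))
      rwa [mul_one] at h2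
    · have h2 := Bd.mul hc0 hε hCc (Bd.pow hε (hε1.le.trans hl1) hS (ℓ - 1 - i))
      rwa [mul_comm c ε] at h2
  have hsum : (ℓ : ℚ_[ℓ]) • C = (S ^ ℓ * P - P * S ^ ℓ) -
      ∑ i ∈ Finset.range ℓ, (S ^ i * C * S ^ (ℓ - 1 - i) - C) := by
    rw [comm_pow, Finset.sum_sub_distrib, Finset.sum_const, Finset.card_range,
      Nat.cast_smul_eq_nsmul]
    abel
  have hdec : ‖((ℓ : ℚ_[ℓ]) • C) i0 j0‖ ≤ max ((ℓ : ℝ)⁻¹ * r) (ε * c) := by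
    rw [hsum, Matrix.sub_apply]
    have h3 : ∀ a b : ℚ_[ℓ], ‖a - b‖ ≤ max ‖a‖ ‖b‖ := fun a b => by
      rw [sub_eq_add_neg]
      exact (Padic.nonarchimedean _ _).trans (by rw [norm_neg])
    exact (h3 _ _).trans (max_le_max (h i0 j0) (Bd.sum (mul_nonneg hε hc0) _ hD i0 j0))
  rw [Matrix.smul_apply, smul_eq_mul, norm_mul, norm_l, ← hc] at hdec
  have hcr : c ≤ r := by
    rcases le_max_iff.1 hdec with h1 | h1
    · exact le_of_mul_le_mul_left h1 hl0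
    · rcases hc0.eq_or_lt with h2 | h2
      · rw [← h2]; exact hr
      · exact absurd (le_of_mul_le_mul_right h1 h2) (not_le.2 hε1)
  exact hCc.mono hcr

/-- lower bound for the commutators with the powers with exponent a power of `ℓ` -/
lemma comm_pow_l {S P : Matrix (Fin n) (Fin n) ℚ_[ℓ]} (hS : Bd ((ℓ : ℝ)⁻¹ ^ 2) (S - 1)) (k : ℕ)
    {r : ℝ} (hr : 0 ≤ r) (h : Bd ((ℓ : ℝ)⁻¹ ^ k * r) (S ^ (ℓ ^ k) * P - P * S ^ (ℓ ^ k))) :
    Bd r (S * P - P * S) := by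
  have hl0 : 0 < (ℓ : ℝ)⁻¹ := inv_pos.2 l_pos
  have hl1 : (ℓ : ℝ)⁻¹ < 1 := inv_lt_one_of_one_lt₀ (by exact_mod_cast hℓ.out.one_lt)
  induction k generalizing r with
  | zero =>
    simpa only [pow_zero, pow_one, one_mul] using h
  | succ k ih =>
    apply ih hr
    have h0 : S ^ (ℓ ^ (k + 1)) = (S ^ (ℓ ^ k)) ^ ℓ := by rw [pow_succ, pow_mul]
    rw [h0, pow_succ, mul_assoc, mul_comm ((ℓ : ℝ)⁻¹) r, ← mul_assoc, mul_comm _ ((ℓ : ℝ)⁻¹)] at h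
    refine comm_l (ε := (ℓ : ℝ)⁻¹ ^ (k + 2)) (pow_nonneg hl0.le _) ?_ (Bd.pow_pow hS k)
      (mul_nonneg (pow_nonneg hl0.le _) hr) h
    calc (ℓ : ℝ)⁻¹ ^ (k + 2) = (ℓ : ℝ)⁻¹ ^ (k + 1) * (ℓ : ℝ)⁻¹ := pow_succ _ _
      _ < 1 * (ℓ : ℝ)⁻¹ := mul_lt_mul_of_pos_right (pow_lt_one₀ hl0.le hl1 (by omega)) hl0
      _ = (ℓ : ℝ)⁻¹ := one_mul _

end Pool.Agent.Q69.MTQ
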